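import Pool.Agent.Helper41.A2.Asm

/-!
# Alternating groups over the affine line over the field with two elements

For every `n ≥ 9`, `n ≠ 12`, the alternating group `A_n` is a finite quotient of the fundamental
group of the affine line over `F_2`.
-/

set_option autoImplicit false

namespace Pool.Agent.Results.MP_9c0cee_ag.AlternatingGroupsTwo

/-- For all `n ≥ 9`, `n ≠ 12`, there is a finite Galois extension of `F_2(x)` with group `A_n` in
which the integral closure of `F_2[x]` is étale over `F_2[x]`. -/
theorem result :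
    ∀ (n : ℕ) (_ : 9 ≤ n) (_ : n ≠ 12),
      (∃ (L : Type) (_ : Field L) (_ : Algebra (RatFunc (ZMod 2)) L)
          (_ : Algebra (Polynomial (ZMod 2)) L)
          (_ : IsScalarTower (Polynomial (ZMod 2)) (RatFunc (ZMod 2)) L),
          FiniteDimensional (RatFunc (ZMod 2)) L ∧ IsGalois (RatFunc (ZMod 2)) L ∧
          Nonempty ((L ≃ₐ[RatFunc (ZMod 2)] L) ≃* alternatingGroup (Fin n)) ∧
          Algebra.Etale (Polynomial (ZMod 2)) (integralClosure (Polynomial (ZMod 2)) L)) := by
  intro n hn h
  obtain ⟨A, ⟨P⟩⟩ := Pool.Agent.Helper41.A2.exists_bdata n hn h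
  exact A.isLineGroup hn P

end Pool.Agent.Results.MP_9c0cee_ag.AlternatingGroupsTwo
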