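import Pool.Agent.Helper41.AL.Isom
import Pool.Agent.Helper41.AL.SpMain
import Pool.Agent.Helper41.AL.SuMain

/-!
# Isometry groups over the affine line over the prime field

For every finite field `E` of characteristic `p` with an involution and every nondegenerate
alternating or skew-hermitian form on `E ^ n`, each quotient of the special isometry group (a
symplectic or a special unitary group) is a finite quotient of the fundamental group of the affine
line over `F_p`.
-/

set_option autoImplicit false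

namespace Pool.Agent.Results.MP_9c0cee_ag.IsometryGroups

open Pool.Agent.Helper41.AL Matrix

/-- The group of the matrices of determinant one which preserve the sesquilinear form with the
matrix `M`. -/
def isometryGroup {E : Type} [Field E] [StarRing E] {n : ℕ} (M : Matrix (Fin n) (Fin n) E) :
    Subgroup (SpecialLinearGroup (Fin n) E) where
  carrier := {g | g.1ᴴ * M * g.1 = M}
  mul_mem' := by
    intro a b ha hb
    have ha' : a.1ᴴ * M * a.1 = M := ha
    have hb' : b.1ᴴ * M * b.1 = M := hb
    change (a.1 * b.1)ᴴ * M * (a.1 * b.1) = M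
    rw [conjTranspose_mul]
    calc _ = b.1ᴴ * (a.1ᴴ * M * a.1) * b.1 := by simp only [Matrix.mul_assoc]
      _ = _ := by rw [ha', hb']
  one_mem' := by
    change (1 : Matrix (Fin n) (Fin n) E)ᴴ * M * 1 = M
    rw [conjTranspose_one, Matrix.one_mul, Matrix.mul_one]
  inv_mem' := by
    intro a ha
    have ha' : a.1ᴴ * M * a.1 = M := ha
    have h1 : a.1 * (a⁻¹).1 = 1 := congrArg Subtype.val (mul_inv_cancel a)
    have h2 : (a⁻¹).1ᴴ * a.1ᴴ = 1 := by
      rw [← conjTranspose_mul, h1, conjTranspose_one]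
    change (a⁻¹).1ᴴ * M * (a⁻¹).1 = M
    calc _ = (a⁻¹).1ᴴ * (a.1ᴴ * M * a.1) * (a⁻¹).1 := by rw [ha']
      _ = ((a⁻¹).1ᴴ * a.1ᴴ) * M * (a.1 * (a⁻¹).1) := by simp only [Matrix.mul_assoc]
      _ = _ := by rw [h1, h2, Matrix.one_mul, Matrix.mul_one]

theorem mem_isometryGroup {E : Type} [Field E] [StarRing E] {n : ℕ}
    (M : Matrix (Fin n) (Fin n) E) (g : SpecialLinearGroup (Fin n) E) :
    g ∈ isometryGroup M ↔ g.1ᴴ * M * g.1 = M := Iff.rfl

/-- Symplectic groups. -/
theorem exists_sp {E : Type} [Field E] [StarRing E] (hstar : ∀ a : E, star a = a) {n : ℕ}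
    (M : Matrix (Fin n) (Fin n) E) (hM : Mᴴ = -M) (hdiag : ∀ i, M i i = 0) (hdet : M.det ≠ 0) :
    ∃ (m : ℕ) (ψ : symplecticGroup (Fin m) E →* isometryGroup M), Function.Surjective ψ := by
  classical
  have hT : ∀ {a b : Type} (N : Matrix a b E), Nᴴ = Nᵀ := by
    intro a b N
    ext i j
    rw [conjTranspose_apply, hstar, transpose_apply]
  have hskew : Mᵀ = -M := by rw [← hT, hM]
  have hev : Even n := by
    by_contra h
    exact hdet (Isom.det_alt_odd (Nat.not_even_iff_odd.mp h) M hskew hdiag)
  obtain ⟨m, hm⟩ := hev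
  let e : Fin n ≃ Fin m ⊕ Fin m := (finCongr hm).trans finSumFinEquiv.symm
  let M' : Matrix (Fin m ⊕ Fin m) (Fin m ⊕ Fin m) E := M.submatrix e.symm e.symm
  obtain ⟨A, hA⟩ := exists_symplectic_basis E m M'
    (by
      ext i j
      have := congrFun (congrFun hskew (e.symm i)) (e.symm j)
      simpa [M'] using this)
    (fun i => hdiag _)
    (by
      change IsUnit (M.submatrix e.symm e.symm).det
      rw [det_submatrix_equiv_self]
      exact isUnit_iff_ne_zero.mpr hdet)
  let At : Matrix (Fin m ⊕ Fin m) (Fin m ⊕ Fin m) E :=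
    (A : Matrix (Fin m ⊕ Fin m) (Fin m ⊕ Fin m) E)ᵀ
  let Ai : Matrix (Fin m ⊕ Fin m) (Fin m ⊕ Fin m) E :=
    ((A⁻¹ : GL (Fin m ⊕ Fin m) E) : Matrix (Fin m ⊕ Fin m) (Fin m ⊕ Fin m) E)ᵀ
  have h1 : At * Ai = 1 := by
    rw [← transpose_mul, ← Units.val_mul, inv_mul_cancel, Units.val_one, transpose_one]
  have h2 : Ai * At = 1 := by
    rw [← transpose_mul, ← Units.val_mul, mul_inv_cancel, Units.val_one, transpose_one]
  have hM' : M' = Atᵀ * J (Fin m) E * At := by rw [← hA, transpose_transpose]
  have hMM : M = M'.submatrix e e := by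
    ext i j
    simp [M']
  have hsub : ∀ N N' : Matrix (Fin m ⊕ Fin m) (Fin m ⊕ Fin m) E,
      N.submatrix e e * N'.submatrix e e = (N * N').submatrix e e := by
    intro N N'
    rw [submatrix_mul_equiv]
  have key : ∀ h ∈ symplecticGroup (Fin m) E,
      ((Ai * h * At).submatrix e e)ᴴ * M * (Ai * h * At).submatrix e e = M := by
    intro h hh
    rw [SymplecticGroup.mem_iff'] at hh
    rw [hT, hMM, transpose_submatrix, hsub, hsub, transpose_mul, transpose_mul, hM']
    congr 1
    calc _ = Atᵀ * (hᵀ * ((At * Ai)ᵀ * J (Fin m) E * (At * Ai)) * h) * At := by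
            rw [transpose_mul]
            simp only [Matrix.mul_assoc]
      _ = _ := by rw [h1, transpose_one, Matrix.one_mul, Matrix.mul_one, hh]
  have hdet' : ∀ h ∈ symplecticGroup (Fin m) E, ((Ai * h * At).submatrix e e).det = 1 := by
    intro h hh
    rw [det_submatrix_equiv_self, det_mul, det_mul, SymplecticGroup.det_eq_one hh, mul_one,
      ← det_mul, h2, det_one]
  let ψ : symplecticGroup (Fin m) E →* isometryGroup M :=
    { toFun := fun h => ⟨⟨(Ai * (h : Matrix (Fin m ⊕ Fin m) (Fin m ⊕ Fin m) E) *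
        At).submatrix e e, hdet' h h.2⟩, key h h.2⟩
      map_one' := by
        apply Subtype.ext
        apply Subtype.ext
        change (Ai * 1 * At).submatrix e e = 1
        rw [Matrix.mul_one, h2]
        simp
      map_mul' := by
        intro x y
        apply Subtype.ext
        apply Subtype.ext
        change (Ai * ((x : Matrix (Fin m ⊕ Fin m) (Fin m ⊕ Fin m) E) *
          (y : Matrix (Fin m ⊕ Fin m) (Fin m ⊕ Fin m) E)) * At).submatrix e e =
          (Ai * (x : Matrix (Fin m ⊕ Fin m) (Fin m ⊕ Fin m) E) * At).submatrix e e *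
          (Ai * (y : Matrix (Fin m ⊕ Fin m) (Fin m ⊕ Fin m) E) * At).submatrix e e
        rw [hsub]
        congr 1
        calc _ = Ai * ((x : Matrix (Fin m ⊕ Fin m) (Fin m ⊕ Fin m) E) * 1 *
              (y : Matrix (Fin m ⊕ Fin m) (Fin m ⊕ Fin m) E)) * At := by rw [Matrix.mul_one]
          _ = _ := by
              rw [← h1]
              simp only [Matrix.mul_assoc] }
  refine ⟨m, ψ, ?_⟩
  intro g
  have hg := (mem_isometryGroup M g).mp g.2
  let G : Matrix (Fin n) (Fin n) E := g.1.1
  let G' : Matrix (Fin m ⊕ Fin m) (Fin m ⊕ Fin m) E := G.submatrix e.symm e.symm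
  have hGG : G = G'.submatrix e e := by
    ext i j
    simp [G']
  have hg' : G'ᵀ * M' * G' = M' := by
    have h3 := congrArg (fun N => N.submatrix e.symm e.symm) hg
    rw [hT] at h3
    change (Gᵀ * M * G).submatrix e.symm e.symm = M' at h3
    rw [← submatrix_mul_equiv _ _ _ e.symm, ← submatrix_mul_equiv _ _ _ e.symm] at h3
    exact h3
  have hmem : At * G' * Ai ∈ symplecticGroup (Fin m) E := by
    rw [SymplecticGroup.mem_iff', transpose_mul, transpose_mul]
    calc _ = Aiᵀ * (G'ᵀ * (Atᵀ * J (Fin m) E * At) * G') * Ai := by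
            simp only [Matrix.mul_assoc]
      _ = (At * Ai)ᵀ * J (Fin m) E * (At * Ai) := by
            rw [← hM', hg', hM', transpose_mul]
            simp only [Matrix.mul_assoc]
      _ = _ := by rw [h1, transpose_one, Matrix.one_mul, Matrix.mul_one]
  refine ⟨⟨_, hmem⟩, ?_⟩
  apply Subtype.ext
  apply Subtype.ext
  change (Ai * (At * G' * Ai) * At).submatrix e e = G
  rw [hGG]
  congr 1
  calc _ = (Ai * At) * G' * (Ai * At) := by simp only [Matrix.mul_assoc]
    _ = _ := by rw [h2, Matrix.one_mul, Matrix.mul_one]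

/-- Special unitary groups. -/
theorem exists_su {E : Type} [Field E] [Finite E] [StarRing E] (hstar : ∃ a : E, star a ≠ a)
    {n : ℕ} (M : Matrix (Fin n) (Fin n) E) (hM : Mᴴ = -M) (hdet : M.det ≠ 0) :
    ∃ ψ : specialUnitaryGroup (Fin n) E →* isometryGroup M, Function.Surjective ψ := by
  classical
  obtain ⟨x, hx⟩ := hstar
  let a : E := x - star x
  have ha : star a = -a := by simp [a]
  have ha0 : a ≠ 0 := by
    intro h
    exact hx (sub_eq_zero.mp h).symm
  let H : Matrix (Fin n) (Fin n) E := a • M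
  have hH : Hᴴ = H := by
    change (a • M)ᴴ = a • M
    rw [conjTranspose_smul, hM, ha, smul_neg, neg_smul, neg_neg]
  have hHM : ∀ g : Matrix (Fin n) (Fin n) E, gᴴ * M * g = M ↔ gᴴ * H * g = H := by
    intro g
    change _ ↔ gᴴ * (a • M) * g = a • M
    rw [Matrix.mul_smul, Matrix.smul_mul]
    exact ⟨fun h => by rw [h], fun h => smul_right_injective _ ha0 h⟩
  have hc : ∀ N : Matrix (Fin n) (Fin n) E, ((starRingEnd E : E →+* E).mapMatrix N)ᵀ = Nᴴ := by
    intro N
    ext i j
    rfl
  obtain ⟨A, hA⟩ := exists_hermitian_basis E (starRingEnd E) (fun x => star_star x) ⟨x, hx⟩ n H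
    (by rw [hc, hH])
    (by
      change IsUnit (a • M).det
      rw [det_smul]
      exact isUnit_iff_ne_zero.mpr (mul_ne_zero (pow_ne_zero _ ha0) hdet))
  rw [hc] at hA
  let B : Matrix (Fin n) (Fin n) E := (A : Matrix (Fin n) (Fin n) E)
  let Bi : Matrix (Fin n) (Fin n) E := ((A⁻¹ : GL (Fin n) E) : Matrix (Fin n) (Fin n) E)
  have h1 : B * Bi = 1 := by
    change ((A : Matrix (Fin n) (Fin n) E) * ((A⁻¹ : GL (Fin n) E) : Matrix (Fin n) (Fin n) E)) = 1
    rw [← Units.val_mul, mul_inv_cancel, Units.val_one]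
  have h2 : Bi * B = 1 := by
    change (((A⁻¹ : GL (Fin n) E) : Matrix (Fin n) (Fin n) E) * (A : Matrix (Fin n) (Fin n) E)) = 1
    rw [← Units.val_mul, inv_mul_cancel, Units.val_one]
  have hBH : Bᴴ * B = H := hA
  have hB1 : Biᴴ * Bᴴ = 1 := by rw [← conjTranspose_mul, h1, conjTranspose_one]
  have hB2 : Bᴴ * Biᴴ = 1 := by rw [← conjTranspose_mul, h2, conjTranspose_one]
  have hu : ∀ h : Matrix (Fin n) (Fin n) E, h ∈ specialUnitaryGroup (Fin n) E ↔
      hᴴ * h = 1 ∧ h.det = 1 := by
    intro h
    rw [mem_specialUnitaryGroup_iff, mem_unitaryGroup_iff', star_eq_conjTranspose]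
  let ψ : specialUnitaryGroup (Fin n) E →* isometryGroup M :=
    { toFun := fun h => ⟨⟨Bi * (h : Matrix (Fin n) (Fin n) E) * B, by
          rw [det_mul, det_mul, ((hu _).mp h.2).2, mul_one, ← det_mul, h2, det_one]⟩, by
          rw [mem_isometryGroup, hHM, ← hBH]
          change (Bi * (h : Matrix (Fin n) (Fin n) E) * B)ᴴ * (Bᴴ * B) *
            (Bi * (h : Matrix (Fin n) (Fin n) E) * B) = Bᴴ * B
          rw [conjTranspose_mul, conjTranspose_mul]
          calc _ = Bᴴ * ((h : Matrix (Fin n) (Fin n) E)ᴴ * ((Biᴴ * Bᴴ) * (B * Bi)) *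
                (h : Matrix (Fin n) (Fin n) E)) * B := by simp only [Matrix.mul_assoc]
            _ = _ := by rw [h1, hB1, Matrix.mul_one, Matrix.mul_one, ((hu _).mp h.2).1,
              Matrix.mul_one]⟩
      map_one' := by
        apply Subtype.ext
        apply Subtype.ext
        change Bi * 1 * B = 1
        rw [Matrix.mul_one, h2]
      map_mul' := by
        intro x y
        apply Subtype.ext
        apply Subtype.ext
        change Bi * ((x : Matrix (Fin n) (Fin n) E) * (y : Matrix (Fin n) (Fin n) E)) * B =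
          (Bi * (x : Matrix (Fin n) (Fin n) E) * B) * (Bi * (y : Matrix (Fin n) (Fin n) E) * B)
        calc _ = Bi * ((x : Matrix (Fin n) (Fin n) E) * (B * Bi) *
              (y : Matrix (Fin n) (Fin n) E)) * B := by rw [h1, Matrix.mul_one]
          _ = _ := by simp only [Matrix.mul_assoc] }
  refine ⟨ψ, ?_⟩
  intro g
  have hg := (hHM _).mp ((mem_isometryGroup M g).mp g.2)
  let G : Matrix (Fin n) (Fin n) E := g.1.1
  have hg' : Gᴴ * H * G = H := hg
  have hmem : B * G * Bi ∈ specialUnitaryGroup (Fin n) E := by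
    rw [hu]
    constructor
    · rw [conjTranspose_mul, conjTranspose_mul]
      calc _ = Biᴴ * (Gᴴ * (Bᴴ * B) * G) * Bi := by simp only [Matrix.mul_assoc]
        _ = (Biᴴ * Bᴴ) * (B * Bi) := by
            rw [hBH, hg', ← hBH]
            simp only [Matrix.mul_assoc]
        _ = _ := by rw [h1, hB1, Matrix.mul_one]
    · have hd : G.det = 1 := g.1.2
      rw [det_mul, det_mul, hd, mul_one, ← det_mul, h1, det_one]
  refine ⟨⟨_, hmem⟩, ?_⟩
  apply Subtype.ext
  apply Subtype.ext
  change Bi * (B * G * Bi) * B = G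
  calc _ = (Bi * B) * G * (Bi * B) := by simp only [Matrix.mul_assoc]
    _ = _ := by rw [h2, Matrix.one_mul, Matrix.mul_one]

/-- For every prime `p`, every finite field `E` of characteristic `p` with an involution `star`
(possibly trivial), every nondegenerate skew-hermitian matrix `M` over `E` (alternating if the
involution is trivial) and every quotient `A` of the special isometry group of `M` there is a
finite Galois extension of `F_p(x)` with group `A` in which the integral closure of `F_p[x]` is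
étale over `F_p[x]`. -/
theorem result :
    ∀ (p : ℕ) [Fact p.Prime] (E : Type) [Field E] [Finite E] [CharP E p] [StarRing E] (n : ℕ)
      (M : Matrix (Fin n) (Fin n) E) (_ : Mᴴ = -M)
      (_ : (∀ a : E, star a = a) → ∀ i, M i i = 0) (_ : M.det ≠ 0)
      (A : Type) [Group A] (φ : isometryGroup M →* A),
      Function.Surjective φ →
      (∃ (L : Type) (_ : Field L) (_ : Algebra (RatFunc (ZMod p)) L)
          (_ : Algebra (Polynomial (ZMod p)) L)
          (_ : IsScalarTower (Polynomial (ZMod p)) (RatFunc (ZMod p)) L),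
          FiniteDimensional (RatFunc (ZMod p)) L ∧ IsGalois (RatFunc (ZMod p)) L ∧
          Nonempty ((L ≃ₐ[RatFunc (ZMod p)] L) ≃* A) ∧
          Algebra.Etale (Polynomial (ZMod p)) (integralClosure (Polynomial (ZMod p)) L)) := by
  intro p _ E _ _ _ _ n M hM halt hdet A _ φ hφ
  by_cases h : ∀ a : E, star a = a
  · obtain ⟨m, ψ, hψ⟩ := exists_sp h M hM (halt h) hdet
    exact SpMain.main p E m A (φ.comp ψ) (hφ.comp hψ)
  · push Not at h
    obtain ⟨ψ, hψ⟩ := exists_su h M hM hdet
    exact SuMain.main p E h n A (φ.comp ψ) (hφ.comp hψ)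

end Pool.Agent.Results.MP_9c0cee_ag.IsometryGroups
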