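import Pool.Agent.Helper41.AL.EA

/-!
# Linear groups over the affine line over the prime field

For every prime `p` and every finite ring `𝔄` of characteristic `p`, each quotient `A` of the
group generated by the units of `𝔄` of order a power of `p` is a finite quotient of the
fundamental group of the affine line over `F_p` (conclusion of the frozen statement S00333).
-/

set_option autoImplicit false

namespace Pool.Agent.Results.MP_9c0cee_ag.LinearGroups

open Pool.Agent.Helper41.AL

/-- For every prime `p`, every finite ring `𝔄` with `p = 0` and every group `A` which is a quotient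
of the group generated by the units of `𝔄` of order a power of `p`, there is a finite Galois
extension of `F_p(x)` with group `A` in which the integral closure of `F_p[x]` is étale over
`F_p[x]`. -/
theorem result :
    ∀ (p : ℕ) [Fact p.Prime] (𝔄 : Type) [Ring 𝔄] [Finite 𝔄] (_ : (p : 𝔄) = 0)
      (A : Type) [Group A]
      (φ : Subgroup.closure {u : 𝔄ˣ | ∃ k : ℕ, u ^ p ^ k = 1} →* A),
      Function.Surjective φ →
      (∃ (L : Type) (_ : Field L) (_ : Algebra (RatFunc (ZMod p)) L)
          (_ : Algebra (Polynomial (ZMod p)) L)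
          (_ : IsScalarTower (Polynomial (ZMod p)) (RatFunc (ZMod p)) L),
          FiniteDimensional (RatFunc (ZMod p)) L ∧ IsGalois (RatFunc (ZMod p)) L ∧
          Nonempty ((L ≃ₐ[RatFunc (ZMod p)] L) ≃* A) ∧
          Algebra.Etale (Polynomial (ZMod p)) (integralClosure (Polynomial (ZMod p)) L)) := by
  intro p _ 𝔄 _ _ hp A _ φ hφ
  let _ : Algebra (ZMod p) 𝔄 := ZMod.algebra' 𝔄 (ringChar 𝔄) (ringChar.dvd hp)
  exact isLineGroup_pGen p 𝔄 A φ hφ

/-- For `𝔄 = M_n(F)`, `F` a finite field of characteristic `p`: the special linear group `SL_n(F)`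
and all its quotients, for instance `PSL_n(F)`, are covered by `result`. -/
theorem special_linear (p : ℕ) [Fact p.Prime] (F : Type) [Field F] [Finite F] [CharP F p] (n : ℕ)
    (A : Type) [Group A] (φ : Matrix.SpecialLinearGroup (Fin n) F →* A)
    (hφ : Function.Surjective φ) : IsLineGroup p A := by
  classical
  let _ : Algebra (ZMod p) F := ZMod.algebra F p
  have hle : ∀ u ∈ pGen p (Matrix (Fin n) (Fin n) F), (u : Matrix (Fin n) (Fin n) F).det = 1 := by
    intro u hu
    let D : (Matrix (Fin n) (Fin n) F)ˣ →* F := Matrix.detMonoidHom.comp (Units.coeHom _)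
    have h1 : pGen p (Matrix (Fin n) (Fin n) F) ≤ (D.toHomUnits).ker := by
      rw [pGen, Subgroup.closure_le]
      rintro u ⟨k, hk⟩
      rw [SetLike.mem_coe, MonoidHom.mem_ker]
      apply Units.ext
      have h2 := PG.nilpotent_sub_one p (u : Matrix (Fin n) (Fin n) F) k (by
        rw [← Units.val_pow_eq_pow_val, hk, Units.val_one])
      have h4 := PG.isNilpotent_map_det _ ⟨p ^ k, h2⟩
      rw [add_sub_cancel] at h4
      exact h4
    exact congrArg Units.val (MonoidHom.mem_ker.mp (h1 hu))
  let Ψ : pGen p (Matrix (Fin n) (Fin n) F) →* Matrix.SpecialLinearGroup (Fin n) F :=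
    { toFun := fun u => ⟨(u : (Matrix (Fin n) (Fin n) F)ˣ), hle u u.2⟩
      map_one' := rfl
      map_mul' := fun _ _ => rfl }
  have hΨ : Function.Surjective Ψ := by
    intro g
    have hg : g ∈ (Subgroup.closure {g : Matrix.SpecialLinearGroup (Fin n) F |
        ∃ k : ℕ, g ^ p ^ k = 1}) := by
      rw [SL_pGen p F (Fin n)]
      trivial
    let E : Matrix.SpecialLinearGroup (Fin n) F →* (Matrix (Fin n) (Fin n) F)ˣ :=
      MonoidHom.toHomUnits
        { toFun := fun g => (g : Matrix (Fin n) (Fin n) F)
          map_one' := rfl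
          map_mul' := fun _ _ => rfl }
    have h1 : (Subgroup.closure {g : Matrix.SpecialLinearGroup (Fin n) F |
        ∃ k : ℕ, g ^ p ^ k = 1}).map E ≤ pGen p (Matrix (Fin n) (Fin n) F) := by
      rw [MonoidHom.map_closure]
      apply Subgroup.closure_mono
      rintro _ ⟨g, ⟨k, hk⟩, rfl⟩
      exact ⟨k, by rw [← map_pow, hk, map_one]⟩
    exact ⟨⟨E g, h1 ⟨g, hg, rfl⟩⟩, rfl⟩
  exact isLineGroup_pGen p (Matrix (Fin n) (Fin n) F) A (φ.comp Ψ) (hφ.comp hΨ)

end Pool.Agent.Results.MP_9c0cee_ag.LinearGroups
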