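import Pool.Agent.Helper41.AG.Main

/-!
# The arithmetical form of Nori's theorem

Groups of matrices over `F_p` which are generated by the values of polynomial paths, and which
contain all `F_p`-points of their Zariski closure, are finite quotients of the fundamental group of
the affine line over the prime field `F_p`.
-/

set_option autoImplicit false

namespace Pool.Agent.Results.MP_9c0cee_ag.NoriGroups

open Pool.Agent.Helper41 Polynomial Matrix

/-- The subgroup of `GL_n(R)` generated by the values `u(r)`, `r` in `R`, of the polynomial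
matrices `u` in `U`. -/
def pathGroup {p : ℕ} [Fact p.Prime] {n : ℕ} (U : Set (GL (Fin n) (ZMod p)[X])) (R : Type)
    [CommRing R] [Algebra (ZMod p) R] : Subgroup (GL (Fin n) R) :=
  Subgroup.closure {g | ∃ u ∈ U, ∃ r : R, ∀ i j,
    (g : Matrix (Fin n) (Fin n) R) i j = aeval r ((u : Matrix (Fin n) (Fin n) (ZMod p)[X]) i j)}

theorem pathGroup_eq {p : ℕ} [Fact p.Prime] {n : ℕ} (U : Set (GL (Fin n) (ZMod p)[X])) (R : Type)
    [CommRing R] [Algebra (ZMod p) R] : pathGroup U R = AG.E U R := by
  unfold pathGroup AG.E
  congr 1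
  ext g
  constructor
  · rintro ⟨u, hu, r, h⟩
    refine ⟨u, hu, r, ?_⟩
    apply Units.ext
    ext i j
    rw [h i j]
    rfl
  · rintro ⟨u, hu, r, rfl⟩
    exact ⟨u, hu, r, fun i j => rfl⟩

/-- Let `U` be a set of invertible matrices `u(t)` over `F_p[t]` with `u(0) = 1`. If the group
generated by the matrices `u(r)`, `r` in `F_p`, contains all invertible matrices over `F_p` at
which all those polynomials vanish that vanish on the groups generated by the `u(r)`, `r` in
`F_p[t_1, ..., t_m]`, `m` arbitrary, then every quotient of this group is the Galois group of a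
finite Galois extension of `F_p(x)` in which the integral closure of `F_p[x]` is étale over
`F_p[x]`. -/
theorem result :
    ∀ (p : ℕ) [Fact p.Prime] (n : ℕ) (U : Set (GL (Fin n) (ZMod p)[X]))
      (_ : ∀ u ∈ U, (u : Matrix (Fin n) (Fin n) (ZMod p)[X]).map (eval 0) = 1)
      (_ : ∀ g : GL (Fin n) (ZMod p),
        (∀ P : MvPolynomial (Fin n × Fin n) (ZMod p),
          (∀ (m : ℕ), ∀ h ∈ pathGroup U (MvPolynomial (Fin m) (ZMod p)), MvPolynomial.aeval
            (fun ij : Fin n × Fin n =>
              (h : Matrix (Fin n) (Fin n) (MvPolynomial (Fin m) (ZMod p))) ij.1 ij.2) P = 0) →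
          MvPolynomial.aeval
            (fun ij : Fin n × Fin n => (g : Matrix (Fin n) (Fin n) (ZMod p)) ij.1 ij.2) P = 0) →
        g ∈ pathGroup U (ZMod p))
      (A : Type) [Group A] (φ : pathGroup U (ZMod p) →* A),
      Function.Surjective φ →
      (∃ (L : Type) (_ : Field L) (_ : Algebra (RatFunc (ZMod p)) L)
          (_ : Algebra (Polynomial (ZMod p)) L)
          (_ : IsScalarTower (Polynomial (ZMod p)) (RatFunc (ZMod p)) L),
          FiniteDimensional (RatFunc (ZMod p)) L ∧ IsGalois (RatFunc (ZMod p)) L ∧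
          Nonempty ((L ≃ₐ[RatFunc (ZMod p)] L) ≃* A) ∧
          Algebra.Etale (Polynomial (ZMod p)) (integralClosure (Polynomial (ZMod p)) L)) := by
  intro p _ n U hU hc A _ φ hφ
  have hstart : AG.Start U := by
    intro u hu
    apply Units.ext
    ext i j
    have h := congrFun (congrFun (hU u hu) i) j
    rw [Matrix.map_apply] at h
    rw [AL.gmap_apply, coe_aeval_eq_eval, h]
    rfl
  have hclosed : ∀ g : GL (Fin n) (ZMod p), g ∈ AG.Zpts U (ZMod p) → g ∈ AG.E U (ZMod p) := by
    intro g hg
    rw [← pathGroup_eq]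
    refine hc g fun P hP => hg P fun m h hh => ?_
    rw [← pathGroup_eq] at hh
    exact hP m h hh
  let e : AG.E U (ZMod p) ≃* pathGroup U (ZMod p) :=
    MulEquiv.subgroupCongr (pathGroup_eq U (ZMod p)).symm
  exact AG.main U hstart hclosed A (φ.comp e.toMonoidHom) (hφ.comp e.surjective)

end Pool.Agent.Results.MP_9c0cee_ag.NoriGroups
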